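import Mathlib
import Pool.Agent.Helper60.BlockGluingDefs
import Pool.Agent.Helper60.BlockGluingProof
import Pool.Agent.Helper19.MC.Defs
import Pool.Agent.Helper19.MC.SlopeDefs
import Pool.Agent.Helper19.MC.Slope
import Pool.Agent.Helper19.MC.Ledrappier

/-!
# The growth exponent `κ(c)` of a subshift with `B(n) ≤ c n`

The definitions are in `Pool/Agent/Helper60/BlockGluingDefs.lean` (blocks, gluing functions,
entropy dimension), `Pool/Agent/Helper19/MC/Defs.lean` (shifts of finite type) and
`Pool/Agent/Helper19/MC/SlopeDefs.lean` (the function `κ`).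
-/

set_option autoImplicit false

open Filter Topology Pool.Agent.Helper60.BlockGluing Pool.Agent.Helper19.MC

namespace Pool.Agent.Results.MP_390418_an.GrowthExponent

/-- Let `X` be a subshift on `ℤ²` over a finite alphabet with more than one point.
* If `B(n) ≤ c n` for all large `n` (`c ≥ 0` real) then for some `α > 0` and all `k` there are at
  least `exp (α k ^ κ(c))` globally valid `k × k` patterns, where `κ(c) = log 2 / log ρ(c)` and
  `ρ(c) = (c + √(c² + 8)) / 2`.
* If `B(n) = o(n)`, the entropy dimension of `X` exists and equals `2`.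

The function `κ` is strictly decreasing on `[0, ∞)`, `κ(0) = 2` and `κ(1) = 1`; and the exponent
is optimal for `c = 1`: there is a `ℤ²`-shift of finite type with more than one point,
`B(n) ≤ n` for all `n` and entropy dimension `1`. -/
theorem result :
    (∀ (A : Type) [Finite A] [TopologicalSpace A] [DiscreteTopology A] (X : Set (ℤ × ℤ → A)),
      IsSubshift X → X.Nontrivial →
        (∀ c : NNReal, (∀ᶠ n : ℕ in atTop, ((gluing X n : ℕ∞) : ENNReal) ≤ c * n) →
          ∃ α : ℝ, 0 < α ∧ ∀ k : ℕ,
            Real.exp (α * (k : ℝ) ^ kappa c) ≤ Nat.card (lang X k)) ∧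
        (Tendsto (fun n : ℕ => ((gluing X n : ℕ∞) : ENNReal) / n) atTop (𝓝 0) →
          HasEntropyDimension X 2)) ∧
    (StrictAntiOn kappa (Set.Ici 0) ∧ kappa 0 = 2 ∧ kappa 1 = 1) ∧
    ∃ X : Set (ℤ × ℤ → ZMod 2), IsSFT X ∧ X.Nontrivial ∧ (∀ n : ℕ, gluing X n ≤ n) ∧
      HasEntropyDimension X 1 :=
  ⟨fun _ _ _ _ _ hX h2 => ⟨fun _ hB => growth hX.2 h2 hB,
      fun hB => entropyDimension_eq_two hX.2 h2 hB⟩,
    ⟨kappa_strictAntiOn, kappa_zero, kappa_one⟩,
    Led, Led_isSFT, Led_nontrivial, Led_gluing, Led_dimension⟩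

end Pool.Agent.Results.MP_390418_an.GrowthExponent
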