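import Mathlib
import Pool.Agent.Helper60.BlockGluingDefs
import Pool.Agent.Helper19.MC.Defs
import Pool.Agent.Helper19.MC.Final
import Pool.Agent.Helper19.MC.LedHaar

/-!
# Zero entropy and `limsup B(n)/n < 1`: the measure centre of a shift of finite type is nowhere dense

The definitions are in `Pool/Agent/Helper60/BlockGluingDefs.lean` (blocks, gluing functions,
entropy) and `Pool/Agent/Helper19/MC/Defs.lean` (shifts of finite type, invariant measures).
-/

set_option autoImplicit false

open Filter Topology Pool.Agent.Helper60.BlockGluing Pool.Agent.Helper19.MC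

namespace Pool.Agent.Results.MP_390418_an.MeasureCentre

/-- Let `X` be a `ℤ²`-shift of finite type over a finite alphabet with more than one point,
topological entropy `0` and `limsup B(n)/n < 1` (for instance `B(n) = o(n)`).  Then every open set
`U` that meets `X` contains an open set `V` that meets `X` and has measure `0` for every
shift-invariant Borel probability measure on `X`.  In particular no such measure has full support:
the closed union of the supports of all of them is nowhere dense in `X`.

The bound `1` is optimal: there are a `ℤ²`-shift of finite type with more than one point, entropy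
`0` and `B(n) ≤ n` for all `n`, and a shift-invariant Borel probability measure of full support
on it. -/
theorem result :
    (∀ (A : Type) [Finite A] [TopologicalSpace A] [DiscreteTopology A]
      [MeasurableSpace A] [MeasurableSingletonClass A] (X : Set (ℤ × ℤ → A)),
      IsSFT X → X.Nontrivial →
      limsup (fun n : ℕ => ((gluing X n : ℕ∞) : ENNReal) / n) atTop < 1 →
      HasEntropy X 0 →
      ∀ U : Set (ℤ × ℤ → A), IsOpen U → (U ∩ X).Nonempty →
        ∃ V ⊆ U, IsOpen V ∧ (V ∩ X).Nonempty ∧
          ∀ μ : MeasureTheory.Measure (ℤ × ℤ → A), IsInvariantOn X μ → μ V = 0) ∧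
    ∃ (X : Set (ℤ × ℤ → ZMod 2)) (μ : MeasureTheory.Measure (ℤ × ℤ → ZMod 2)),
      IsSFT X ∧ X.Nontrivial ∧ (∀ n : ℕ, gluing X n ≤ n) ∧ HasEntropy X 0 ∧
      IsInvariantOn X μ ∧
      ∀ U : Set (ℤ × ℤ → ZMod 2), IsOpen U → (U ∩ X).Nonempty → 0 < μ U :=
  ⟨fun _ _ _ _ _ _ _ hX h2 hB h0 _ hU hUX => main hX h2 hB h0 hU hUX,
    Led, ledMeasure, Led_isSFT, Led_nontrivial, Led_gluing, Led_entropy, ledMeasure_invariantOn,
    fun _ hU h => ledMeasure_pos hU h⟩

end Pool.Agent.Results.MP_390418_an.MeasureCentre
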