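import Mathlib
import Pool.Agent.Helper60.BlockGluingDefs
import Pool.Agent.Helper60.BlockGluingProof

/-!
# Positive entropy from a summable block gluing function

The definitions are in `Pool/Agent/Helper60/BlockGluingDefs.lean`.
-/

set_option autoImplicit false

open Pool.Agent.Helper60.BlockGluing

namespace Pool.Agent.Results.MP_390418_an.PositiveEntropy

/-- Let `X` be a subshift on `ℤ²` over a finite alphabet with more than one point whose block
gluing function satisfies `∑_k B(2^k) / 2^k < ∞`.  Then the topological entropy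
`h(X) = lim (1/k²) log |L_k(X)|` is positive. -/
theorem result {A : Type} [Finite A] [TopologicalSpace A] [DiscreteTopology A]
    (X : Set (ℤ × ℤ → A)) (hX : IsSubshift X) (h2 : X.Nontrivial)
    (hB : ∑' k : ℕ, ((gluing X (2 ^ k) : ℕ∞) : ENNReal) / 2 ^ k ≠ ⊤) :
    ∃ h : ℝ, 0 < h ∧ HasEntropy X h :=
  entropy_pos hX.2 h2 hB

end Pool.Agent.Results.MP_390418_an.PositiveEntropy
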