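import Mathlib
import Pool.Agent.Helper60.BlockGluingDefs
import Pool.Agent.Helper59.SH.Final

/-!
# Aperiodic subshifts of zero entropy with sublinear block gluing

The definitions are in `Pool/Agent/Helper60/BlockGluingDefs.lean`.
-/

set_option autoImplicit false

open Pool.Agent.Helper60.BlockGluing

namespace Pool.Agent.Results.MP_390418_an.SharpSubshifts

/-- Let `f : ℕ → ℕ` be nondecreasing with `f ≥ 1` and `∑_k f(2^k) / 2^k = ∞`, for example
`f(n) = max 1 ⌊n / log₂ (n + 2)⌋`. There is a nonempty aperiodic subshift on `ℤ²` over the alphabet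
`{0,1}⁴` with entropy `0` and `B(n) ≤ f(n)` for all `n`. -/
theorem result (f : ℕ → ℕ) (hf : Monotone f) (h1 : ∀ n, 1 ≤ f n)
    (hdiv : ∑' k : ℕ, (f (2 ^ k) : ENNReal) / 2 ^ k = ⊤) :
    ∃ X : Set (ℤ × ℤ → Bool × Bool × Bool × Bool), IsSubshift X ∧ X.Nonempty ∧
      (∀ x ∈ X, ∀ v : ℤ × ℤ, v ≠ 0 → shift v x ≠ x) ∧ HasEntropy X 0 ∧
      ∀ n, gluing X n ≤ (f n : ℕ∞) :=
  Pool.Agent.Helper59.SH.sharp f hf h1 hdiv

end Pool.Agent.Results.MP_390418_an.SharpSubshifts
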